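import Pool.Agent.H77.BD.Defs

/-!
# Basic lemmas (board bde_modules)
-/

set_option autoImplicit false

open Set Matrix Pool.Agent.H77.BC

namespace Pool.Agent.H77.BD

variable {l : ℕ} {C : Matrix (Fin l) (Fin l) ℤ} {F : Type} [Field F]

/-! ### the form -/

theorem ip_add_left (u v w : Fin l → ℤ) : ip C (u + v) w = ip C u w + ip C v w :=
  add_dotProduct _ _ _

theorem ip_add_right (u v w : Fin l → ℤ) : ip C u (v + w) = ip C u v + ip C u w := by
  unfold ip
  rw [mulVec_add, dotProduct_add]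

theorem ip_neg_left (v w : Fin l → ℤ) : ip C (-v) w = - ip C v w := neg_dotProduct _ _

theorem ip_neg_right (v w : Fin l → ℤ) : ip C v (-w) = - ip C v w := by
  unfold ip
  rw [mulVec_neg, dotProduct_neg]

theorem ip_sub_left (u v w : Fin l → ℤ) : ip C (u - v) w = ip C u w - ip C v w := by
  rw [sub_eq_add_neg, ip_add_left, ip_neg_left, sub_eq_add_neg]

theorem ip_sub_right (u v w : Fin l → ℤ) : ip C u (v - w) = ip C u v - ip C u w := by
  rw [sub_eq_add_neg, ip_add_right, ip_neg_right, sub_eq_add_neg]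

@[simp] theorem ip_zero_left (v : Fin l → ℤ) : ip C 0 v = 0 := zero_dotProduct _

@[simp] theorem ip_zero_right (v : Fin l → ℤ) : ip C v 0 = 0 := by
  unfold ip
  rw [mulVec_zero, dotProduct_zero]

theorem ip_smul_left (a : ℤ) (v w : Fin l → ℤ) : ip C (a • v) w = a * ip C v w :=
  smul_dotProduct _ _ _

theorem ip_smul_right (a : ℤ) (v w : Fin l → ℤ) : ip C v (a • w) = a * ip C v w := by
  unfold ip
  rw [mulVec_smul, dotProduct_smul, smul_eq_mul]

theorem ip_eq_sum (v w : Fin l → ℤ) : ip C v w = ∑ i, ∑ j, v i * C i j * w j := by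
  unfold ip mulVec dotProduct
  refine Finset.sum_congr rfl fun i _ => ?_
  rw [Finset.mul_sum]
  refine Finset.sum_congr rfl fun j _ => ?_
  ring

@[simp] theorem ip_si_si (i j : Fin l) : ip C (si i) (si j) = C i j := by
  unfold ip si
  rw [mulVec_single_one, single_one_dotProduct]
  rfl

theorem ip_si_right (v : Fin l → ℤ) (j : Fin l) : ip C v (si j) = ∑ i, v i * C i j := by
  unfold ip si
  rw [mulVec_single_one]
  rfl

theorem ip_si_left (v : Fin l → ℤ) (i : Fin l) : ip C (si i) v = (C *ᵥ v) i := by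
  unfold ip si
  rw [single_one_dotProduct]

theorem ip_comm (hC : Cartan C) (v w : Fin l → ℤ) : ip C v w = ip C w v := by
  rw [ip_eq_sum, ip_eq_sum, Finset.sum_comm]
  refine Finset.sum_congr rfl fun i _ => Finset.sum_congr rfl fun j _ => ?_
  rw [hC.symm j i]
  ring

/-- `v` is the combination of the simple roots -/
theorem eq_sum_si (v : Fin l → ℤ) : v = ∑ i, v i • si i := by
  funext j
  simp [si, Finset.sum_apply, Pi.single_apply]

theorem ip_eq_sum_right (v w : Fin l → ℤ) : ip C v w = ∑ j, w j * ip C v (si j) := by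
  simp_rw [ip_si_right, ip_eq_sum, Finset.mul_sum]
  rw [Finset.sum_comm]
  refine Finset.sum_congr rfl fun i _ => Finset.sum_congr rfl fun j _ => ?_
  ring

/-! ### signs -/

@[simp] theorem sg_zero : sg 0 = 1 := by simp [sg]

@[simp] theorem sg_one : sg 1 = -1 := by
  unfold sg
  rw [if_neg (by decide)]

theorem sg_add (m n : ℤ) : sg (m + n) = sg m * sg n := by
  unfold sg
  by_cases hm : Even m <;> by_cases hn : Even n <;>
    simp [Int.even_add, hm, hn]

theorem sg_neg (m : ℤ) : sg (-m) = sg m := by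
  unfold sg
  simp

theorem sg_sub (m n : ℤ) : sg (m - n) = sg m * sg n := by
  rw [sub_eq_add_neg, sg_add, sg_neg]

theorem sg_cases (m : ℤ) : sg m = 1 ∨ sg m = -1 := by
  unfold sg
  by_cases hm : Even m <;> simp [hm]

@[simp] theorem sg_mul_self (m : ℤ) : sg m * sg m = 1 := by
  rcases sg_cases m with h | h <;> rw [h] <;> rfl

theorem ar_add_left (u v w : Fin l → ℤ) : ar C (u + v) w = ar C u w + ar C v w :=
  add_dotProduct _ _ _

theorem ar_add_right (u v w : Fin l → ℤ) : ar C u (v + w) = ar C u v + ar C u w := by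
  unfold ar
  rw [mulVec_add, dotProduct_add]

theorem ar_neg_left (v w : Fin l → ℤ) : ar C (-v) w = - ar C v w := neg_dotProduct _ _

theorem ar_neg_right (v w : Fin l → ℤ) : ar C v (-w) = - ar C v w := by
  unfold ar
  rw [mulVec_neg, dotProduct_neg]

theorem ar_comm (hC : Cartan C) (v w : Fin l → ℤ) : ar C v w + ar C w v = ip C v w := by
  have h1 : ar C w v = v ⬝ᵥ ((lo C)ᵀ *ᵥ w) := by
    unfold ar
    rw [dotProduct_mulVec, dotProduct_comm, mulVec_transpose]
  have h2 : lo C + (lo C)ᵀ = C := by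
    ext i j
    rw [Matrix.add_apply, Matrix.transpose_apply]
    unfold lo
    rw [Matrix.of_apply, Matrix.of_apply]
    rcases lt_trichotomy i j with h | h | h
    · rw [if_neg h.ne, if_neg (not_lt.mpr h.le), if_neg h.ne', if_pos h, zero_add, hC.symm]
    · rw [if_pos h, if_pos h.symm, h, hC.diag]
      norm_num
    · rw [if_neg h.ne', if_pos h, if_neg h.ne, if_neg (not_lt.mpr h.le), add_zero]
  unfold ip
  conv_rhs => rw [← h2, add_mulVec, dotProduct_add]
  rw [h1]
  rfl

theorem eps_add_left (u v w : Fin l → ℤ) : eps C (u + v) w = eps C u w * eps C v w := by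
  unfold eps
  rw [ar_add_left, sg_add]

theorem eps_add_right (u v w : Fin l → ℤ) : eps C u (v + w) = eps C u v * eps C u w := by
  unfold eps
  rw [ar_add_right, sg_add]

@[simp] theorem eps_neg_left (v w : Fin l → ℤ) : eps C (-v) w = eps C v w := by
  unfold eps
  rw [ar_neg_left, sg_neg]

@[simp] theorem eps_neg_right (v w : Fin l → ℤ) : eps C v (-w) = eps C v w := by
  unfold eps
  rw [ar_neg_right, sg_neg]

theorem eps_sub_left (u v w : Fin l → ℤ) : eps C (u - v) w = eps C u w * eps C v w := by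
  rw [sub_eq_add_neg, eps_add_left, eps_neg_left]

theorem eps_sub_right (u v w : Fin l → ℤ) : eps C u (v - w) = eps C u v * eps C u w := by
  rw [sub_eq_add_neg, eps_add_right, eps_neg_right]

theorem eps_cases (v w : Fin l → ℤ) : eps C v w = 1 ∨ eps C v w = -1 := sg_cases _

@[simp] theorem eps_mul_self (v w : Fin l → ℤ) : eps C v w * eps C v w = 1 := sg_mul_self _

theorem eps_mul_self_F (v w : Fin l → ℤ) : (eps C v w : F) * (eps C v w : F) = 1 := by
  rw [← Int.cast_mul, eps_mul_self, Int.cast_one]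

theorem eps_ne_zero_F (v w : Fin l → ℤ) : (eps C v w : F) ≠ 0 := by
  intro h
  have := eps_mul_self_F (F := F) (C := C) v w
  rw [h, mul_zero] at this
  exact zero_ne_one this

/-- exchange of the arguments -/
theorem eps_swap (hC : Cartan C) (v w : Fin l → ℤ) : eps C v w = eps C w v * sg (ip C v w) := by
  rw [← ar_comm hC, sg_add]
  unfold eps
  rcases sg_cases (ar C v w) with h | h <;> rcases sg_cases (ar C w v) with h' | h' <;>
    rw [h, h'] <;> rfl

theorem eps_self (hC : Cartan C) (β : Root C) : eps C β.1 β.1 = -1 := by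
  have h := ar_comm hC β.1 β.1
  rw [β.2] at h
  have h1 : ar C β.1 β.1 = 1 := by omega
  unfold eps
  rw [h1, sg_one]

/-! ### roots -/

@[simp] theorem ip_self (β : Root C) : ip C β.1 β.1 = 2 := β.2

theorem root_ne_zero (β : Root C) : β.1 ≠ 0 := by
  intro h
  have := β.2
  rw [h, ip_zero_left] at this
  norm_num at this

/-- the negative of a root -/
def ng (β : Root C) : Root C := ⟨-β.1, by rw [ip_neg_left, ip_neg_right, neg_neg]; exact β.2⟩

@[simp] theorem ng_val (β : Root C) : (ng β).1 = -β.1 := rfl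

/-- a simple root -/
def sr (hC : Cartan C) (i : Fin l) : Root C := ⟨si i, by rw [ip_si_si, hC.diag]⟩

@[simp] theorem sr_val (hC : Cartan C) (i : Fin l) : (sr hC i).1 = si i := rfl

/-- the sum of two roots with product `-1` -/
def ad (hC : Cartan C) (β γ : Root C) (h : ip C β.1 γ.1 = -1) : Root C := ⟨β.1 + γ.1, by
  rw [ip_add_left, ip_add_right, ip_add_right, ip_comm hC γ.1 β.1, h, ip_self, ip_self]
  norm_num⟩

@[simp] theorem ad_val (hC : Cartan C) (β γ : Root C) (h : ip C β.1 γ.1 = -1) :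
    (ad hC β γ h).1 = β.1 + γ.1 := rfl

/-- the difference of two roots with product `1` -/
def sb (hC : Cartan C) (β γ : Root C) (h : ip C β.1 γ.1 = 1) : Root C := ⟨β.1 - γ.1, by
  rw [ip_sub_left, ip_sub_right, ip_sub_right, ip_comm hC γ.1 β.1, h, ip_self, ip_self]
  norm_num⟩

@[simp] theorem sb_val (hC : Cartan C) (β γ : Root C) (h : ip C β.1 γ.1 = 1) :
    (sb hC β γ h).1 = β.1 - γ.1 := rfl

theorem ip_of_sum (hC : Cartan C) (β γ δ : Root C) (h : δ.1 = β.1 + γ.1) :
    ip C β.1 γ.1 = -1 := by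
  have h1 := δ.2
  rw [h, ip_add_left, ip_add_right, ip_add_right, ip_comm hC γ.1 β.1, ip_self, ip_self] at h1
  omega

theorem ip_of_sub (hC : Cartan C) (β γ δ : Root C) (h : δ.1 = β.1 - γ.1) :
    ip C β.1 γ.1 = 1 := by
  have h1 := δ.2
  rw [h, ip_sub_left, ip_sub_right, ip_sub_right, ip_comm hC γ.1 β.1, ip_self, ip_self] at h1
  omega

theorem ip_le_one (hC : Cartan C) (β γ : Root C) (h : β ≠ γ) : ip C β.1 γ.1 ≤ 1 := by
  have h0 : β.1 - γ.1 ≠ 0 := fun h' => h (Subtype.ext (sub_eq_zero.mp h'))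
  have h1 := hC.pos _ h0
  rw [ip_sub_left, ip_sub_right, ip_sub_right, ip_comm hC γ.1 β.1, ip_self, ip_self] at h1
  omega

theorem ip_eq_two (hC : Cartan C) (β γ : Root C) (h : ip C β.1 γ.1 = 2) : β = γ := by
  by_contra hn
  have := ip_le_one hC β γ hn
  omega

theorem neg_one_le_ip (hC : Cartan C) (β γ : Root C) (h : γ.1 ≠ -β.1) : -1 ≤ ip C β.1 γ.1 := by
  have h1 := ip_le_one hC (ng β) γ (fun h' => h (by rw [← h']; rfl))
  rw [ng_val, ip_neg_left] at h1
  omega

theorem ip_eq_neg_two (hC : Cartan C) (β γ : Root C) (h : ip C β.1 γ.1 = -2) : γ.1 = -β.1 := by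
  by_contra hn
  have := neg_one_le_ip hC β γ hn
  omega

theorem ip_le_two (hC : Cartan C) (β γ : Root C) : ip C β.1 γ.1 ≤ 2 := by
  by_cases h : β = γ
  · rw [h, ip_self]
  · exact (ip_le_one hC β γ h).trans (by norm_num)

theorem neg_two_le_ip (hC : Cartan C) (β γ : Root C) : -2 ≤ ip C β.1 γ.1 := by
  by_cases h : γ.1 = -β.1
  · rw [h, ip_neg_right, ip_self]
  · exact (by norm_num : (-2 : ℤ) ≤ -1).trans (neg_one_le_ip hC β γ h)

/-- there are finitely many roots -/
theorem finRoot (hC : Cartan C) : Finite (Root C) := by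
  have hf : Finite (Fin l → Fin 5) := inferInstance
  refine Finite.of_injective (fun (β : Root C) (i : Fin l) =>
    (⟨(ip C β.1 (si i) + 2).toNat, ?_⟩ : Fin 5)) ?_
  · have h1 := ip_le_two hC β (sr hC i)
    rw [sr_val] at h1
    omega
  · intro β γ h
    have h1 : ∀ i, ip C (β.1 - γ.1) (si i) = 0 := by
      intro i
      have h2 := congrArg Fin.val (congrFun h i)
      have h3 := neg_two_le_ip hC β (sr hC i)
      have h4 := neg_two_le_ip hC γ (sr hC i)
      rw [sr_val] at h3 h4
      simp only at h2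
      rw [ip_sub_left]
      omega
    by_contra hn
    have h0 : β.1 - γ.1 ≠ 0 := fun h' => hn (Subtype.ext (sub_eq_zero.mp h'))
    have h5 := hC.pos _ h0
    rw [ip_eq_sum_right] at h5
    simp [h1] at h5

/-! ### coordinates -/

@[simp] theorem co_val (v : Root C → F) (γ : Root C) : co v γ.1 = v γ := dif_pos γ.2

theorem co_of (v : Root C → F) {w : Fin l → ℤ} (γ : Root C) (h : w = γ.1) : co v w = v γ := by
  rw [h, co_val]

theorem co_not (v : Root C → F) {w : Fin l → ℤ} (h : ip C w w ≠ 2) : co v w = 0 := dif_neg h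

theorem co_neg (v : Root C → F) (γ : Root C) : co v (-γ.1) = v (ng γ) := co_of v _ rfl

theorem co_add (u v : Root C → F) (w : Fin l → ℤ) : co (u + v) w = co u w + co v w := by
  unfold co
  by_cases h : ip C w w = 2
  · simp [h]
  · simp [h]

theorem co_smul (a : F) (v : Root C → F) (w : Fin l → ℤ) : co (a • v) w = a * co v w := by
  unfold co
  by_cases h : ip C w w = 2
  · simp [h]
  · simp [h]

theorem pr_add (β : Fin l → ℤ) (g h : Fin l → F) : pr β (g + h) = pr β g + pr β h := by
  unfold pr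
  simp [mul_add, Finset.sum_add_distrib]

theorem pr_smul (β : Fin l → ℤ) (a : F) (h : Fin l → F) : pr β (a • h) = a * pr β h := by
  unfold pr
  rw [Finset.mul_sum]
  refine Finset.sum_congr rfl fun i _ => ?_
  rw [Pi.smul_apply, smul_eq_mul]
  ring

@[simp] theorem pr_zero (β : Fin l → ℤ) : pr β (0 : Fin l → F) = 0 := by simp [pr]

theorem pr_add_left (β γ : Fin l → ℤ) (h : Fin l → F) : pr (β + γ) h = pr β h + pr γ h := by
  unfold pr
  rw [← Finset.sum_add_distrib]
  refine Finset.sum_congr rfl fun i _ => ?_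
  rw [Pi.add_apply, Int.cast_add]
  ring

theorem pr_neg_left (β : Fin l → ℤ) (h : Fin l → F) : pr (-β) h = - pr β h := by
  unfold pr
  rw [← Finset.sum_neg_distrib]
  refine Finset.sum_congr rfl fun i _ => ?_
  rw [Pi.neg_apply, Int.cast_neg]
  ring

theorem pr_sub_left (β γ : Fin l → ℤ) (h : Fin l → F) : pr (β - γ) h = pr β h - pr γ h := by
  rw [sub_eq_add_neg, pr_add_left, pr_neg_left, sub_eq_add_neg]

theorem pr_hh (β γ : Fin l → ℤ) : pr β (hh C F γ) = (ip C β γ : F) := by
  unfold pr hh ip dotProduct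
  push_cast
  rfl

theorem hh_add (β γ : Fin l → ℤ) : hh C F (β + γ) = hh C F β + hh C F γ := by
  funext i
  unfold hh
  rw [mulVec_add, Pi.add_apply, Int.cast_add]
  rfl

theorem hh_neg (β : Fin l → ℤ) : hh C F (-β) = - hh C F β := by
  funext i
  unfold hh
  rw [mulVec_neg, Pi.neg_apply, Int.cast_neg]
  rfl

theorem Xf_eq (β : Root C) (t : F) (v : Sp C F) : Xf β t v = v + t • nf β v + t ^ 2 • qf β v := by
  refine Prod.ext ?_ ?_
  · funext γ
    simp only [Xf, nf, qf, Prod.fst_add, Prod.smul_fst, Pi.add_apply, Pi.smul_apply, smul_eq_mul]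
    split_ifs <;> ring
  · funext i
    simp only [Xf, nf, qf, Prod.snd_add, Prod.smul_snd, Pi.add_apply, Pi.smul_apply, smul_eq_mul,
      Pi.zero_apply]
    ring

theorem chi_add (c : Fin l → Fˣ) (β γ : Fin l → ℤ) : chi C c (β + γ) = chi C c β * chi C c γ := by
  unfold chi
  rw [← Finset.prod_mul_distrib]
  refine Finset.prod_congr rfl fun i _ => ?_
  rw [ip_add_left, _root_.zpow_add]

theorem chi_neg (c : Fin l → Fˣ) (β : Fin l → ℤ) : chi C c (-β) = (chi C c β)⁻¹ := by
  unfold chi
  rw [← Finset.prod_inv_distrib]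
  refine Finset.prod_congr rfl fun i _ => ?_
  rw [ip_neg_left, _root_.zpow_neg]

theorem chi_mul (c d : Fin l → Fˣ) (β : Fin l → ℤ) : chi C (c * d) β = chi C c β * chi C d β := by
  unfold chi
  rw [← Finset.prod_mul_distrib]
  refine Finset.prod_congr rfl fun i _ => ?_
  rw [Pi.mul_apply, mul_zpow]

theorem chi_single (i : Fin l) (c : Fˣ) (β : Fin l → ℤ) :
    chi C (Pi.mulSingle i c) β = c ^ ip C β (si i) := by
  unfold chi
  rw [Finset.prod_eq_single i]
  · rw [Pi.mulSingle_eq_same]
  · intro j _ h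
    rw [Pi.mulSingle_eq_of_ne h, _root_.one_zpow]
  · intro h
    exact (h (Finset.mem_univ i)).elim

/-! ### linearity of the operators -/

theorem nf_add (β : Root C) (u v : Sp C F) : nf β (u + v) = nf β u + nf β v := by
  refine Prod.ext ?_ ?_
  · funext γ
    simp only [nf, Prod.fst_add, Prod.snd_add, Pi.add_apply, co_add, pr_add]
    split_ifs <;> ring
  · funext i
    simp only [nf, Prod.fst_add, Prod.snd_add, Pi.add_apply, co_add]
    ring

theorem nf_smul (β : Root C) (a : F) (v : Sp C F) : nf β (a • v) = a • nf β v := by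
  refine Prod.ext ?_ ?_
  · funext γ
    simp only [nf, Prod.smul_fst, Prod.smul_snd, Pi.smul_apply, smul_eq_mul, co_smul, pr_smul]
    split_ifs <;> ring
  · funext i
    simp only [nf, Prod.smul_fst, Prod.smul_snd, Pi.smul_apply, smul_eq_mul, co_smul]
    ring

theorem qf_add (β : Root C) (u v : Sp C F) : qf β (u + v) = qf β u + qf β v := by
  refine Prod.ext ?_ ?_
  · funext γ
    simp only [qf, Prod.fst_add, Pi.add_apply, co_add]
    split_ifs <;> ring
  · funext i
    simp only [qf, Prod.snd_add, Pi.add_apply, Pi.zero_apply]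
    ring

theorem qf_smul (β : Root C) (a : F) (v : Sp C F) : qf β (a • v) = a • qf β v := by
  refine Prod.ext ?_ ?_
  · funext γ
    simp only [qf, Prod.smul_fst, Pi.smul_apply, smul_eq_mul, co_smul]
    split_ifs <;> ring
  · funext i
    simp only [qf, Prod.smul_snd, Pi.smul_apply, smul_eq_mul, Pi.zero_apply]
    ring

theorem ah_add (h : Fin l → F) (u v : Sp C F) : ah h (u + v) = ah h u + ah h v := by
  refine Prod.ext ?_ ?_
  · funext γ
    simp only [ah, Prod.fst_add, Pi.add_apply]
    ring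
  · funext i
    simp only [ah, Prod.snd_add, Pi.add_apply, Pi.zero_apply]
    ring

theorem ah_smul (h : Fin l → F) (a : F) (v : Sp C F) : ah h (a • v) = a • ah h v := by
  refine Prod.ext ?_ ?_
  · funext γ
    simp only [ah, Prod.smul_fst, Pi.smul_apply, smul_eq_mul]
    ring
  · funext i
    simp only [ah, Prod.smul_snd, Pi.smul_apply, smul_eq_mul, Pi.zero_apply]
    ring

theorem Xf_add (β : Root C) (t : F) (u v : Sp C F) : Xf β t (u + v) = Xf β t u + Xf β t v := by
  rw [Xf_eq, Xf_eq, Xf_eq, nf_add, qf_add, smul_add, smul_add]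
  abel

theorem Xf_smul (β : Root C) (t a : F) (v : Sp C F) : Xf β t (a • v) = a • Xf β t v := by
  rw [Xf_eq, Xf_eq, nf_smul, qf_smul, smul_add, smul_add, smul_comm t a, smul_comm (t ^ 2) a]

theorem Dg_add (c : Fin l → Fˣ) (u v : Sp C F) : Dg c (u + v) = Dg c u + Dg c v := by
  refine Prod.ext ?_ rfl
  funext γ
  simp only [Dg, Prod.fst_add, Pi.add_apply]
  ring

theorem Dg_mul (c d : Fin l → Fˣ) (v : Sp C F) : Dg (c * d) v = Dg c (Dg d v) := by
  refine Prod.ext ?_ rfl
  funext γ
  simp only [Dg, chi_mul, Units.val_mul]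
  ring

theorem Dg_one (v : Sp C F) : Dg (1 : Fin l → Fˣ) v = v := by
  refine Prod.ext ?_ rfl
  funext γ
  simp [Dg, chi]

end Pool.Agent.H77.BD
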