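import Pool.Agent.H77.BC.Targets

/-!
# Simply laced Chevalley groups (board bde_modules, page H77_BDE.md)
-/

set_option autoImplicit false

open Set Matrix Pool.Agent.H77.BC

namespace Pool.Agent.H77.BD

variable {l : ℕ}

/-- the bilinear form of `C` -/
def ip (C : Matrix (Fin l) (Fin l) ℤ) (v w : Fin l → ℤ) : ℤ := v ⬝ᵥ (C *ᵥ w)

/-- the simple roots -/
def si (i : Fin l) : Fin l → ℤ := Pi.single i 1

/-- Cartan matrices with connected simply laced Dynkin diagram -/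
structure Cartan (C : Matrix (Fin l) (Fin l) ℤ) : Prop where
  symm : ∀ i j, C i j = C j i
  diag : ∀ i, C i i = 2
  off : ∀ i j, i ≠ j → C i j = 0 ∨ C i j = -1
  pos : ∀ v : Fin l → ℤ, v ≠ 0 → 0 < ip C v v
  conn : ∀ s : Set (Fin l), s.Nonempty → sᶜ.Nonempty → ∃ i ∈ s, ∃ j ∈ sᶜ, C i j ≠ 0

/-- roots -/
abbrev Root (C : Matrix (Fin l) (Fin l) ℤ) : Type := {β : Fin l → ℤ // ip C β β = 2}

/-- the sign of an integer -/
def sg (n : ℤ) : ℤ := if Even n then 1 else -1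

/-- the lower half of `C` -/
def lo (C : Matrix (Fin l) (Fin l) ℤ) : Matrix (Fin l) (Fin l) ℤ :=
  Matrix.of fun i j => if i = j then 1 else if j < i then C i j else 0

/-- exponent of the cocycle -/
def ar (C : Matrix (Fin l) (Fin l) ℤ) (v w : Fin l → ℤ) : ℤ := v ⬝ᵥ (lo C *ᵥ w)

/-- the cocycle -/
def eps (C : Matrix (Fin l) (Fin l) ℤ) (v w : Fin l → ℤ) : ℤ := sg (ar C v w)

variable {C : Matrix (Fin l) (Fin l) ℤ} {F : Type} [Field F]

/-- the space with the basis `e_γ` (`γ` a root) and `h_1, ..., h_l` -/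
abbrev Sp (C : Matrix (Fin l) (Fin l) ℤ) (F : Type) : Type := (Root C → F) × (Fin l → F)

/-- the coordinate at `w`, zero if `w` is not a root -/
def co (v : Root C → F) (w : Fin l → ℤ) : F := if h : ip C w w = 2 then v ⟨w, h⟩ else 0

/-- the value of `β` on `h` -/
def pr (β : Fin l → ℤ) (h : Fin l → F) : F := ∑ i, (β i : F) * h i

/-- the coroot of `β` -/
def hh (C : Matrix (Fin l) (Fin l) ℤ) (F : Type) [Field F] (β : Fin l → ℤ) : Fin l → F :=
  fun i => (((C *ᵥ β) i : ℤ) : F)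

/-- the root elements: `e_γ ↦ e_γ + t ε(β,γ) e_(β+γ)` (`γ ≠ -β`),
`e_(-β) ↦ e_(-β) - t h_β + t² e_β`, `h ↦ h - t ⟨β,h⟩ e_β` -/
def Xf (β : Root C) (t : F) (v : Sp C F) : Sp C F :=
  (fun γ => v.1 γ + t * ((eps C β.1 (γ.1 - β.1) : F) * co v.1 (γ.1 - β.1)) +
      (if γ = β then t ^ 2 * co v.1 (-β.1) - t * pr β.1 v.2 else 0),
    fun i => v.2 i - t * co v.1 (-β.1) * hh C F β.1 i)

/-- the adjoint Chevalley group of `C` over `F` -/
def Chev (C : Matrix (Fin l) (Fin l) ℤ) (F : Type) [Field F] : Subgroup (Equiv.Perm (Sp C F)) :=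
  Subgroup.closure {g | ∃ (β : Root C) (t : F), ∀ v, g v = Xf β t v}

/-- a vertex of the diagram with three neighbours -/
def Branch (C : Matrix (Fin l) (Fin l) ℤ) : Prop :=
  ∃ b i j m : Fin l, i ≠ j ∧ i ≠ m ∧ j ≠ m ∧ C b i = -1 ∧ C b j = -1 ∧ C b m = -1

/-! ### auxiliary operators -/

/-- the basis vector `e_γ` -/
def eb (F : Type) [Field F] (γ : Root C) : Sp C F := (fun δ => if δ = γ then 1 else 0, 0)

/-- the vector `h` -/
def hb (h : Fin l → F) : Sp C F := (0, h)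

/-- the linear coefficient of `Xf β t` -/
def nf (β : Root C) (v : Sp C F) : Sp C F :=
  (fun γ => (eps C β.1 (γ.1 - β.1) : F) * co v.1 (γ.1 - β.1) + (if γ = β then - pr β.1 v.2 else 0),
    fun i => - (co v.1 (-β.1) * hh C F β.1 i))

/-- the quadratic coefficient of `Xf β t` -/
def qf (β : Root C) (v : Sp C F) : Sp C F := (fun γ => if γ = β then co v.1 (-β.1) else 0, 0)

/-- the action of the element `h` of the Cartan algebra -/
def ah (h : Fin l → F) (v : Sp C F) : Sp C F := (fun γ => pr γ.1 h * v.1 γ, 0)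

/-- the Lie bracket -/
noncomputable def br (v w : Sp C F) : Sp C F :=
  (fun γ => (∑ᶠ β : Root C, v.1 β * ((eps C β.1 (γ.1 - β.1) : F) * co w.1 (γ.1 - β.1))) +
      pr γ.1 v.2 * w.1 γ - pr γ.1 w.2 * v.1 γ,
    fun i => - ∑ᶠ β : Root C, v.1 β * co w.1 (-β.1) * hh C F β.1 i)

/-- characters -/
def chi (C : Matrix (Fin l) (Fin l) ℤ) (c : Fin l → Fˣ) (γ : Fin l → ℤ) : Fˣ :=
  ∏ i, c i ^ ip C γ (si i)

/-- diagonal elements -/
def Dg (c : Fin l → Fˣ) (v : Sp C F) : Sp C F := (fun γ => (chi C c γ.1 : F) * v.1 γ, v.2)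

/-- positive roots -/
def IsPos (β : Root C) : Prop := ∀ i, 0 ≤ β.1 i

/-- negative roots -/
def IsNeg (β : Root C) : Prop := ∀ i, β.1 i ≤ 0

/-! ### abstract form -/

/-- the group generated by the root elements with property `p` -/
def Ug {Γ : Type} [Group Γ] (x : Root C → F → Γ) (p : Root C → Prop) : Subgroup Γ :=
  Subgroup.closure {g | ∃ β t, p β ∧ g = x β t}

/-- the properties of the root elements `x` and of the torus `τ` that are used -/
structure CD {Γ : Type} [Group Γ] (x : Root C → F → Γ) (τ : (Fin l → Fˣ) →* Γ) : Prop where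
  add : ∀ β s t, x β (s + t) = x β s * x β t
  inj : ∀ β s t, x β s = x β t → s = t
  com : ∀ β γ δ : Root C, δ.1 = β.1 + γ.1 → ∀ s t,
    x β s * x γ t = x δ ((eps C β.1 γ.1 : F) * s * t) * (x γ t * x β s)
  cmm : ∀ β γ : Root C, 0 ≤ ip C β.1 γ.1 → ∀ s t, x β s * x γ t = x γ t * x β s
  gen : Subgroup.closure {g | ∃ β t, g = x β t} = ⊤
  cen : ∀ (α : Root C) (g : Γ),
    (∀ γ : Root C, 0 ≤ ip C γ.1 α.1 → ∀ t, g * x γ t = x γ t * g) → ∃ t, g = x α t
  tor : ∀ (c : Fin l → Fˣ) (β : Root C) (t : F), τ c * x β t = x β ((chi C c β.1 : F) * t) * τ c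
  slt : ∀ (i : Fin l) (α α' : Root C), α.1 = si i → α'.1 = - si i → ∀ (s t : F) (c : Fˣ),
    (c : F) = 1 - s * t → x α s * x α' t = x α' (t / c) * τ (Pi.mulSingle i c) * x α (s / c)
  tri : ∀ v ∈ Ug x IsNeg, ∀ c : Fin l → Fˣ, ∀ u ∈ Ug x IsPos, v * τ c * u = 1 →
    v = 1 ∧ τ c = 1 ∧ u = 1

/-- `2 k` roots have product 1 with a given root -/
def IsK (C : Matrix (Fin l) (Fin l) ℤ) (k : ℕ) : Prop :=
  (∀ α : Root C, Nat.card {β : Root C // ip C β.1 α.1 = 1} = 2 * k) ∧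
    Nat.card (Root C) = l * (k + 2)

end Pool.Agent.H77.BD
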