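import Pool.Agent.H77.BD.Bas

/-!
# Targets (board bde_modules, page H77_BDE.md)

Every row proves one of these statements, with other statements of this file as hypotheses.
Notation: `ip C` the form, `si i` the simple roots, `Root C` the roots, `Sp C F` the space with the
basis `e_γ = eb F γ` and the vectors `hb h`, `Xf β t = 1 + t nf β + t² qf β` the root elements.
-/

set_option autoImplicit false

open Set Matrix Pool.Agent.H77.BC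

namespace Pool.Agent.H77.BD

/-! ## A. Roots -/

/-- POS: positivity -/
def T_POS : Prop := ∀ {l : ℕ} {C : Matrix (Fin l) (Fin l) ℤ}, Cartan C →
  (∀ β : Root C, IsPos β ∨ IsNeg β) ∧
  ∀ β : Root C, IsPos β → (∀ i, β.1 ≠ si i) →
    ∃ (i : Fin l) (γ : Root C), ip C β.1 (si i) = 1 ∧ γ.1 = β.1 - si i ∧ IsPos γ

/-- NBR: roots with product `-1` -/
def T_NBR : Prop := ∀ {l : ℕ} {C : Matrix (Fin l) (Fin l) ℤ}, Cartan C → 2 ≤ l →
  ∀ α : Root C, ∃ γ : Root C, ip C α.1 γ.1 = -1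

/-- RCH: chains of roots -/
def T_RCH : Prop := ∀ {l : ℕ} {C : Matrix (Fin l) (Fin l) ℤ}, Cartan C → 2 ≤ l →
  ∀ α β : Root C, Relation.ReflTransGen (fun a b : Root C => ip C a.1 b.1 = 1) α β

/-- SCA: the sum of the squares is a multiple of the form -/
def T_SCA : Prop := ∀ {l : ℕ} {C : Matrix (Fin l) (Fin l) ℤ}, Cartan C →
  ∃ c : ℤ, ∀ v w : Fin l → ℤ, 2 * ∑ᶠ β : Root C, ip C β.1 v * ip C β.1 w = c * ip C v w

/-- CNT: the number of roots -/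
def T_CNT : Prop := ∀ {l : ℕ} {C : Matrix (Fin l) (Fin l) ℤ}, Cartan C → ∃ k : ℕ, IsK C k

/-- BRC: diagrams with a branch vertex -/
def T_BRC : Prop := ∀ {l : ℕ} {C : Matrix (Fin l) (Fin l) ℤ}, Cartan C → Branch C →
  ∀ k : ℕ, IsK C k → l ≤ k

/-- PRS: one root of each pair `β, γ - β` -/
def T_PRS : Prop := ∀ {l : ℕ} {C : Matrix (Fin l) (Fin l) ℤ}, Cartan C →
  ∀ k : ℕ, IsK C k → ∀ γ : Root C, ∃ p : Fin k → Root C, Function.Injective p ∧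
    (∀ i, ip C (p i).1 γ.1 = 1) ∧ ∀ i j, (p i).1 ≠ γ.1 - (p j).1

/-- PRN: values of roots -/
def T_PRN : Prop := ∀ {l : ℕ} {C : Matrix (Fin l) (Fin l) ℤ}, Cartan C →
  ∀ {F : Type} [Field F], (∀ γ : Root C, ∃ h : Fin l → F, pr γ.1 h = 1) ∧
    ∀ γ δ : Root C, γ ≠ δ → γ.1 ≠ -δ.1 → ∃ h : Fin l → F, pr (γ.1 - δ.1) h = 1

/-! ## B. The root elements -/

/-- XAD: one-parameter groups -/
def T_XAD : Prop := ∀ {l : ℕ} {C : Matrix (Fin l) (Fin l) ℤ}, Cartan C →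
  ∀ {F : Type} [Field F] (β : Root C) (s t : F) (v : Sp C F),
    Xf β s (Xf β t v) = Xf β (s + t) v ∧ Xf β 0 v = v

/-- XCM: commuting root elements -/
def T_XCM : Prop := ∀ {l : ℕ} {C : Matrix (Fin l) (Fin l) ℤ}, Cartan C →
  ∀ {F : Type} [Field F] (β γ : Root C), 0 ≤ ip C β.1 γ.1 → ∀ (s t : F) (v : Sp C F),
    Xf β s (Xf γ t v) = Xf γ t (Xf β s v)

/-- XCO: the commutator formula -/
def T_XCO : Prop := ∀ {l : ℕ} {C : Matrix (Fin l) (Fin l) ℤ}, Cartan C →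
  ∀ {F : Type} [Field F] (β γ δ : Root C), δ.1 = β.1 + γ.1 → ∀ (s t : F) (v : Sp C F),
    Xf β s (Xf γ t v) = Xf δ ((eps C β.1 γ.1 : F) * s * t) (Xf γ t (Xf β s v))

/-- XSL: the formula in `SL_2` -/
def T_XSL : Prop := ∀ {l : ℕ} {C : Matrix (Fin l) (Fin l) ℤ} (hC : Cartan C),
  ∀ {F : Type} [Field F] (i : Fin l) (s t : F) (c : Fˣ), (c : F) = 1 - s * t → ∀ v : Sp C F,
    Xf (sr hC i) s (Xf (ng (sr hC i)) t v) =
      Xf (ng (sr hC i)) (t / c) (Dg (Pi.mulSingle i c) (Xf (sr hC i) (s / c) v))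

/-- XDG: diagonal elements -/
def T_XDG : Prop := ∀ {l : ℕ} {C : Matrix (Fin l) (Fin l) ℤ}, Cartan C →
  ∀ {F : Type} [Field F] (c : Fin l → Fˣ) (β : Root C) (t : F) (v : Sp C F),
    Dg c (Xf β t v) = Xf β ((chi C c β.1 : F) * t) (Dg c v)

/-- XEB: root elements on the basis -/
def T_XEB : Prop := ∀ {l : ℕ} {C : Matrix (Fin l) (Fin l) ℤ}, Cartan C →
  ∀ {F : Type} [Field F] (β : Root C) (t : F),
    (∀ γ : Root C, 0 ≤ ip C β.1 γ.1 → Xf β t (eb F γ) = eb F γ) ∧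
    (∀ γ δ : Root C, δ.1 = β.1 + γ.1 →
      Xf β t (eb F γ) = eb F γ + ((eps C β.1 γ.1 : F) * t) • eb F δ) ∧
    Xf β t (eb F (ng β)) = eb F (ng β) - t • hb (hh C F β.1) + t ^ 2 • eb F β ∧
    ∀ h : Fin l → F, Xf β t (hb h) = hb h - (t * pr β.1 h) • eb F β

/-- BRB: the bracket -/
def T_BRB : Prop := ∀ {l : ℕ} {C : Matrix (Fin l) (Fin l) ℤ}, Cartan C →
  ∀ {F : Type} [Field F],
    (∀ (γ : Root C) (w : Sp C F), br (eb F γ) w = nf γ w) ∧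
    (∀ (h : Fin l → F) (w : Sp C F), br (hb h) w = ah h w) ∧
    (∀ u v w : Sp C F, br (u + v) w = br u w + br v w) ∧
    (∀ (a : F) (v w : Sp C F), br (a • v) w = a • br v w) ∧
    ∀ v : Sp C F, v = hb v.2 + ∑ᶠ γ : Root C, v.1 γ • eb F γ

/-- SPB: linear maps which agree on the basis -/
def T_SPB : Prop := ∀ {l : ℕ} {C : Matrix (Fin l) (Fin l) ℤ}, Cartan C →
  ∀ {F : Type} [Field F] (f g : Sp C F → Sp C F), (∀ u v, f (u + v) = f u + f v) →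
    (∀ (a : F) v, f (a • v) = a • f v) → (∀ u v, g (u + v) = g u + g v) →
    (∀ (a : F) v, g (a • v) = a • g v) → (∀ γ, f (eb F γ) = g (eb F γ)) →
    (∀ h, f (hb h) = g (hb h)) → ∀ v, f v = g v

/-- XNA: conjugates of `nf γ` -/
def T_XNA : Prop := ∀ {l : ℕ} {C : Matrix (Fin l) (Fin l) ℤ}, Cartan C →
  ∀ {F : Type} [Field F] [Infinite F] (β γ : Root C) (t : F) (w : Sp C F),
    (0 ≤ ip C β.1 γ.1 → Xf β t (nf γ w) = nf γ (Xf β t w)) ∧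
    ∀ δ : Root C, δ.1 = β.1 + γ.1 →
      Xf β t (nf γ w) = nf γ (Xf β t w) + ((eps C β.1 γ.1 : F) * t) • nf δ (Xf β t w)

/-- XNB: conjugates of `nf (-β)` and of `ah h` -/
def T_XNB : Prop := ∀ {l : ℕ} {C : Matrix (Fin l) (Fin l) ℤ}, Cartan C →
  ∀ {F : Type} [Field F] (β : Root C) (t : F) (w : Sp C F),
    Xf β t (nf (ng β) w) = nf (ng β) (Xf β t w) - t • ah (hh C F β.1) (Xf β t w) +
      t ^ 2 • nf β (Xf β t w) ∧
    ∀ h : Fin l → F, Xf β t (ah h w) = ah h (Xf β t w) - (t * pr β.1 h) • nf β (Xf β t w)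

/-- XBR: root elements preserve the bracket -/
def T_XBR : Prop := ∀ {l : ℕ} {C : Matrix (Fin l) (Fin l) ℤ}, Cartan C →
  ∀ {F : Type} [Field F] [Infinite F] (β : Root C) (t : F) (v w : Sp C F),
    Xf β t (br v w) = br (Xf β t v) (Xf β t w)

/-! ## C. Centralizers -/

/-- linear maps which preserve the bracket -/
def LA {l : ℕ} {C : Matrix (Fin l) (Fin l) ℤ} {F : Type} [Field F]
    (g : Equiv.Perm (Sp C F)) : Prop :=
  (∀ u v, g (u + v) = g u + g v) ∧ (∀ (a : F) (v), g (a • v) = a • g v) ∧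
    ∀ v w, g (br v w) = br (g v) (g w)

/-- maps which commute with the root elements of the roots `γ` with `(γ,α) ≥ 0` -/
def Cm {l : ℕ} {C : Matrix (Fin l) (Fin l) ℤ} {F : Type} [Field F]
    (g : Equiv.Perm (Sp C F)) (α : Root C) : Prop :=
  ∀ γ : Root C, 0 ≤ ip C γ.1 α.1 → ∀ (t : F) (v : Sp C F), g (Xf γ t v) = Xf γ t (g v)

/-- LIN: the elements of the group -/
def T_LIN : Prop := ∀ {l : ℕ} {C : Matrix (Fin l) (Fin l) ℤ}, Cartan C →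
  ∀ {F : Type} [Field F] [Infinite F], ∀ g ∈ Chev C F, LA g

/-- EXT: extraction of the coefficients -/
def T_EXT : Prop := ∀ {l : ℕ} {C : Matrix (Fin l) (Fin l) ℤ}, Cartan C →
  ∀ {F : Type} [Field F] [Infinite F] (g : Equiv.Perm (Sp C F)) (γ : Root C), LA g →
    (∀ (t : F) (v : Sp C F), g (Xf γ t v) = Xf γ t (g v)) →
    ∀ v : Sp C F, g (nf γ v) = nf γ (g v) ∧ g (qf γ v) = qf γ (g v)

/-- CEA: the centralizer on the nonnegative part -/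
def T_CEA : Prop := ∀ {l : ℕ} {C : Matrix (Fin l) (Fin l) ℤ}, Cartan C →
  ∀ {F : Type} [Field F] [Infinite F] (g : Equiv.Perm (Sp C F)) (α : Root C), LA g → Cm g α →
    (∀ γ : Root C, 0 ≤ ip C γ.1 α.1 → g (eb F γ) = eb F γ) ∧
    ∀ δ : Root C, ip C δ.1 α.1 ≤ 0 → ∀ v : Sp C F, (g v).1 δ = v.1 δ

/-- CEB: the centralizer on the Cartan algebra -/
def T_CEB : Prop := ∀ {l : ℕ} {C : Matrix (Fin l) (Fin l) ℤ}, Cartan C → 2 ≤ l →
  ∀ {F : Type} [Field F] [Infinite F] (g : Equiv.Perm (Sp C F)) (α : Root C), LA g → Cm g α →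
    ∃ μ : F, ∀ h : Fin l → F, g (hb h) = hb h - (μ * pr α.1 h) • eb F α

/-- CEC: the centralizer on the part `-1` -/
def T_CEC : Prop := ∀ {l : ℕ} {C : Matrix (Fin l) (Fin l) ℤ}, Cartan C → 2 ≤ l →
  ∀ {F : Type} [Field F] [Infinite F] (g : Equiv.Perm (Sp C F)) (α : Root C), LA g → Cm g α →
    ∀ μ : F, (∀ h : Fin l → F, g (hb h) = hb h - (μ * pr α.1 h) • eb F α) →
    ∀ γ δ : Root C, δ.1 = α.1 + γ.1 → g (eb F γ) = eb F γ + ((eps C α.1 γ.1 : F) * μ) • eb F δ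

/-- CED: the centralizer on `e_(-α)` -/
def T_CED : Prop := ∀ {l : ℕ} {C : Matrix (Fin l) (Fin l) ℤ}, Cartan C → 2 ≤ l →
  ∀ {F : Type} [Field F] [Infinite F] (g : Equiv.Perm (Sp C F)) (α : Root C), LA g → Cm g α →
    ∀ μ : F, (∀ h : Fin l → F, g (hb h) = hb h - (μ * pr α.1 h) • eb F α) →
    g (eb F (ng α)) = eb F (ng α) - μ • hb (hh C F α.1) + μ ^ 2 • eb F α

/-- CEN: the centralizer -/
def T_CEN : Prop := ∀ {l : ℕ} {C : Matrix (Fin l) (Fin l) ℤ}, Cartan C → 2 ≤ l →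
  ∀ {F : Type} [Field F] [Infinite F] (g : Equiv.Perm (Sp C F)) (α : Root C), LA g → Cm g α →
    ∃ μ : F, ∀ v : Sp C F, g v = Xf α μ v

/-- TRI: triangular elements -/
def T_TRI : Prop := ∀ {l : ℕ} {C : Matrix (Fin l) (Fin l) ℤ}, Cartan C →
  ∀ {F : Type} [Field F] (v u : Equiv.Perm (Sp C F)) (c : Fin l → Fˣ),
    v ∈ Subgroup.closure {g : Equiv.Perm (Sp C F) |
      ∃ (β : Root C) (t : F), IsNeg β ∧ ∀ z, g z = Xf β t z} →
    u ∈ Subgroup.closure {g : Equiv.Perm (Sp C F) |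
      ∃ (β : Root C) (t : F), IsPos β ∧ ∀ z, g z = Xf β t z} →
    (∀ z, v (Dg c (u z)) = z) → (∀ z, v z = z) ∧ (∀ z : Sp C F, Dg c z = z) ∧ ∀ z, u z = z

/-- CDC: the group `Chev C F` has the properties `CD` -/
def T_CDC : Prop := ∀ {l : ℕ} {C : Matrix (Fin l) (Fin l) ℤ}, Cartan C → 2 ≤ l →
  ∀ {F : Type} [Field F] [Infinite F],
    ∃ (x : Root C → F → Chev C F) (τ : (Fin l → Fˣ) →* Chev C F), CD x τ

/-- CDT: transport -/
def T_CDT : Prop := ∀ {l : ℕ} {C : Matrix (Fin l) (Fin l) ℤ} {F Γ Δ : Type} [Field F] [Group Γ]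
  [Group Δ] (e : Γ ≃* Δ) (x : Root C → F → Γ) (τ : (Fin l → Fˣ) →* Γ), CD x τ →
    CD (fun β t => e (x β t)) (e.toMonoidHom.comp τ)

/-! ## D. Groups with the properties `CD` -/

/-- GEN: generation by the simple root elements -/
def T_GEN : Prop := ∀ {l : ℕ} {C : Matrix (Fin l) (Fin l) ℤ} (hC : Cartan C) {F Γ : Type} [Field F]
  [Group Γ] {x : Root C → F → Γ} {τ : (Fin l → Fˣ) →* Γ}, CD x τ →
    Subgroup.closure {g | ∃ (i : Fin l) (t : F), g = x (sr hC i) t ∨ g = x (ng (sr hC i)) t} = ⊤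

/-- UIA: the positive unipotent group and a simple root -/
def T_UIA : Prop := ∀ {l : ℕ} {C : Matrix (Fin l) (Fin l) ℤ} (hC : Cartan C) {F Γ : Type} [Field F]
  [Group Γ] {x : Root C → F → Γ} {τ : (Fin l → Fˣ) →* Γ}, CD x τ → ∀ i : Fin l,
    (∀ u ∈ Ug x IsPos, ∃ u' ∈ Ug x (fun β => IsPos β ∧ β.1 ≠ si i), ∃ s, u = u' * x (sr hC i) s) ∧
    ∀ u ∈ Ug x (fun β => IsPos β ∧ β.1 ≠ si i), ∀ t,
      x (ng (sr hC i)) t * u * x (ng (sr hC i)) (-t) ∈ Ug x (fun β => IsPos β ∧ β.1 ≠ si i)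

/-- UIC: the torus normalizes the groups generated by root elements -/
def T_UIC : Prop := ∀ {l : ℕ} {C : Matrix (Fin l) (Fin l) ℤ} {F Γ : Type} [Field F] [Group Γ]
  {x : Root C → F → Γ} {τ : (Fin l → Fˣ) →* Γ}, CD x τ → ∀ (p : Root C → Prop) (c : Fin l → Fˣ),
    ∀ u ∈ Ug x p, τ c * u * (τ c)⁻¹ ∈ Ug x p

/-- UIT: the simple root group meets the other part trivially -/
def T_UIT : Prop := ∀ {l : ℕ} {C : Matrix (Fin l) (Fin l) ℤ} (hC : Cartan C) {F Γ : Type} [Field F]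
  [Infinite F] [Group Γ] {x : Root C → F → Γ} {τ : (Fin l → Fˣ) →* Γ}, CD x τ → ∀ (i : Fin l) (s : F),
    x (sr hC i) s ∈ Ug x (fun β => IsPos β ∧ β.1 ≠ si i) → s = 0

/-- the big cell -/
def Om {l : ℕ} {C : Matrix (Fin l) (Fin l) ℤ} {F Γ : Type} [Field F] [Group Γ]
    (x : Root C → F → Γ) (τ : (Fin l → Fˣ) →* Γ) : Set Γ :=
  {g | ∃ v ∈ Ug x IsNeg, ∃ c : Fin l → Fˣ, ∃ u ∈ Ug x IsPos, g = v * τ c * u}

/-- OMB: the big cell and the simple root elements -/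
def T_OMB : Prop := ∀ {l : ℕ} {C : Matrix (Fin l) (Fin l) ℤ} (hC : Cartan C) {F Γ : Type} [Field F]
  [Group Γ] {x : Root C → F → Γ} {τ : (Fin l → Fˣ) →* Γ}, CD x τ → ∀ (i : Fin l) (t : F),
    ∀ z ∈ Om x τ, z * x (sr hC i) t ∈ Om x τ ∧ (z * x (ng (sr hC i)) t ∈ Om x τ ∨
      ∃ s : F, 1 - s * t = 0 ∧ ∃ v ∈ Ug x IsNeg, ∃ c : Fin l → Fˣ,
        ∃ u ∈ Ug x (fun β => IsPos β ∧ β.1 ≠ si i), z = v * τ c * (u * x (sr hC i) s))

/-- Heisenberg groups -/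
structure HS {F Γ : Type} [Field F] [Group Γ] {k : ℕ} (X Y : (Fin k → F) → Γ) (Z : F → Γ) :
    Prop where
  hX : ∀ a b, X (a + b) = X a * X b
  hY : ∀ a b, Y (a + b) = Y a * Y b
  hZ : ∀ s t, Z (s + t) = Z s * Z t
  inj : ∀ s t, Z s = Z t → s = t
  hXY : ∀ a b, X a * Y b = Z (a ⬝ᵥ b) * (Y b * X a)
  hXZ : ∀ a z, X a * Z z = Z z * X a
  hYZ : ∀ b z, Y b * Z z = Z z * Y b

/-- HXY: the Heisenberg group of a root -/
def T_HXY {M : Type} (U : RU M) : Prop := ∀ {l : ℕ} {C : Matrix (Fin l) (Fin l) ℤ}, Cartan C →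
  ∀ {F Γ : Type} [Field F] [Cod M F] [DF U F] [Group Γ] [Cod M Γ] [DG U Γ] {x : Root C → F → Γ}
  {τ : (Fin l → Fˣ) →* Γ}, CD x τ → (∀ β, DFn U (x β)) → ∀ k : ℕ, IsK C k → ∀ γ : Root C,
    ∃ X Y : (Fin k → F) → Γ, DFn U X ∧ DFn U Y ∧ HS X Y (x γ)

/-- HEA: algebra of the Heisenberg group -/
def T_HEA : Prop := ∀ {F Γ : Type} [Field F] [Group Γ] {k : ℕ} {X Y : (Fin k → F) → Γ} {Z : F → Γ},
  HS X Y Z →
    Function.Injective (fun q : ((Fin k → F) × (Fin k → F)) × F => X q.1.1 * Y q.1.2 * Z q.2) ∧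
    (∃ Q : Subgroup Γ, (Q : Set Γ) =
      range (fun q : ((Fin k → F) × (Fin k → F)) × F => X q.1.1 * Y q.1.2 * Z q.2)) ∧
    ∀ H : Subgroup Γ, ∃ A : AddSubgroup ((Fin k → F) × (Fin k → F)),
      (∀ u, u ∈ A ↔ ∃ z, X u.1 * Y u.2 * Z z ∈ H) ∧
      ∀ u ∈ A, ∀ v ∈ A, Z (u.1 ⬝ᵥ v.2 - v.1 ⬝ᵥ u.2) ∈ H

/-- ISO: isotropic sets -/
def T_ISO : Prop := ∀ {F : Type} [Field F] {k : ℕ} (A : Set ((Fin k → F) × (Fin k → F))),
  (∀ u ∈ A, ∀ v ∈ A, u.1 ⬝ᵥ v.2 - v.1 ⬝ᵥ u.2 = 0) →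
    ∃ W : Submodule F ((Fin k → F) × (Fin k → F)), A ⊆ W ∧ Module.finrank F W ≤ k

/-- SPR: rank of subspaces -/
def T_SPR {M : Type} (U : RU M) : Prop := ∀ {F : Type} [Field F] [Cod M F] [DF U F] {k : ℕ}
  (W : Submodule F ((Fin k → F) × (Fin k → F))),
    U.D (W : Set ((Fin k → F) × (Fin k → F))) ∧
    U.R (W : Set ((Fin k → F) × (Fin k → F))) ≤ Module.finrank F W * U.R (univ : Set F)

/-- HEI: large subgroups contain infinitely many central elements of a Heisenberg group -/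
def T_HEI {M : Type} (U : RU M) : Prop := ∀ {F Γ : Type} [Field F] [Infinite F] [Cod M F] [DF U F]
  [Group Γ] [Cod M Γ] [DG U Γ] {k : ℕ} {X Y : (Fin k → F) → Γ} {Z : F → Γ}, HS X Y Z →
    DFn U X → DFn U Y → DFn U Z → ∀ H : Subgroup Γ, U.D (H : Set Γ) →
    U.R (univ : Set Γ) < U.R (H : Set Γ) + (k + 1) * U.R (univ : Set F) → {z | Z z ∈ H}.Infinite

/-! ## E. Ranked universes -/

/-- DUX: the root groups are definable -/
def T_DUX {M : Type} (U : RU M) : Prop := ∀ {l : ℕ} {C : Matrix (Fin l) (Fin l) ℤ}, Cartan C →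
  ∀ {F Γ : Type} [Field F] [Group Γ] [Cod M Γ] [DG U Γ] {x : Root C → F → Γ}
  {τ : (Fin l → Fˣ) →* Γ}, CD x τ → ∀ α : Root C, U.D {g : Γ | ∃ t, g = x α t}

/-- FLD: the field and the root elements are definable -/
def T_FLD {M : Type} (U : RU M) : Prop := ∀ {l : ℕ} {C : Matrix (Fin l) (Fin l) ℤ}, Cartan C →
  2 ≤ l → ∀ {F Γ : Type} [Field F] [Group Γ] [Cod M Γ] [DG U Γ] {x : Root C → F → Γ}
  {τ : (Fin l → Fˣ) →* Γ}, CD x τ →
    ∃ c : Cod M F, @DF M U F _ c ∧ ∀ β : Root C, @DFn M U F Γ c _ (x β)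

/-- MLT: a group which meets all root groups in infinite sets -/
def T_MLT {M : Type} (U : RU M) : Prop := ∀ {l : ℕ} {C : Matrix (Fin l) (Fin l) ℤ}, Cartan C →
  2 ≤ l → ∀ {F Γ : Type} [Field F] [IsAlgClosed F] [Cod M F] [DF U F] [Group Γ] [Cod M Γ] [DG U Γ]
  {x : Root C → F → Γ} {τ : (Fin l → Fˣ) →* Γ}, CD x τ → (∀ β, DFn U (x β)) →
    ∀ H : Subgroup Γ, U.D (H : Set Γ) → (∀ γ : Root C, {t | x γ t ∈ H}.Infinite) → H = ⊤

/-- LOW: proper definable subgroups -/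
def T_LOW {M : Type} (U : RU M) : Prop := ∀ {l : ℕ} {C : Matrix (Fin l) (Fin l) ℤ}, Cartan C →
  2 ≤ l → ∀ {F Γ : Type} [Field F] [IsAlgClosed F] [Cod M F] [DF U F] [Group Γ] [Cod M Γ] [DG U Γ]
  {x : Root C → F → Γ} {τ : (Fin l → Fˣ) →* Γ}, CD x τ → (∀ β, DFn U (x β)) →
    ∀ k : ℕ, IsK C k → ∀ H : Subgroup Γ, U.D (H : Set Γ) → H ≠ ⊤ →
      U.R (H : Set Γ) + (k + 1) * U.R (univ : Set F) ≤ U.R (univ : Set Γ)

/-- UPS: unipotent groups -/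
def T_UPS {M : Type} (U : RU M) : Prop := ∀ {l : ℕ} {C : Matrix (Fin l) (Fin l) ℤ}, Cartan C →
  ∀ {F Γ : Type} [Field F] [Cod M F] [DF U F] [Group Γ] [Cod M Γ] [DG U Γ]
  {x : Root C → F → Γ} {τ : (Fin l → Fˣ) →* Γ}, CD x τ → (∀ β, DFn U (x β)) →
    ∀ (ht : (Fin l → ℤ) →+ ℤ) (Ψ : Finset (Root C)), (∀ β ∈ Ψ, 0 < ht β.1) →
      (∀ β ∈ Ψ, ∀ γ ∈ Ψ, ∀ δ : Root C, δ.1 = β.1 + γ.1 → δ ∈ Ψ) →
      U.D (Ug x (fun β => β ∈ Ψ) : Set Γ) ∧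
      U.R (Ug x (fun β => β ∈ Ψ) : Set Γ) ≤ Ψ.card * U.R (univ : Set F)

/-- UPN: the positive and the negative unipotent group -/
def T_UPN {M : Type} (U : RU M) : Prop := ∀ {l : ℕ} {C : Matrix (Fin l) (Fin l) ℤ}, Cartan C →
  ∀ {F Γ : Type} [Field F] [Cod M F] [DF U F] [Group Γ] [Cod M Γ] [DG U Γ]
  {x : Root C → F → Γ} {τ : (Fin l → Fˣ) →* Γ}, CD x τ → (∀ β, DFn U (x β)) →
    U.D (Ug x IsPos : Set Γ) ∧ U.D (Ug x IsNeg : Set Γ) ∧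
    U.R (Ug x IsPos : Set Γ) + U.R (Ug x IsNeg : Set Γ) ≤
      Nat.card (Root C) * U.R (univ : Set F) ∧
    ∀ i : Fin l, U.D (Ug x (fun β => IsPos β ∧ β.1 ≠ si i) : Set Γ)

/-- UIR: the rank of the part of the positive unipotent group -/
def T_UIR {M : Type} (U : RU M) : Prop := ∀ {l : ℕ} {C : Matrix (Fin l) (Fin l) ℤ}, Cartan C →
  ∀ {F Γ : Type} [Field F] [Infinite F] [Cod M F] [DF U F] [Group Γ] [Cod M Γ] [DG U Γ]
  {x : Root C → F → Γ} {τ : (Fin l → Fˣ) →* Γ}, CD x τ → (∀ β, DFn U (x β)) → ∀ i : Fin l,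
    U.R (Ug x (fun β => IsPos β ∧ β.1 ≠ si i) : Set Γ) < U.R (Ug x IsPos : Set Γ)

/-- TRK: the torus -/
def T_TRK {M : Type} (U : RU M) : Prop := ∀ {l : ℕ} {C : Matrix (Fin l) (Fin l) ℤ}, Cartan C →
  ∀ {F Γ : Type} [Field F] [Infinite F] [Cod M F] [DF U F] [Group Γ] [Cod M Γ] [DG U Γ]
  {x : Root C → F → Γ} {τ : (Fin l → Fˣ) →* Γ}, CD x τ → (∀ β, DFn U (x β)) →
    U.D (range τ : Set Γ) ∧ U.R (range τ : Set Γ) ≤ l * U.R (univ : Set F)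

/-- OMD: the rank of the big cell -/
def T_OMD {M : Type} (U : RU M) : Prop := ∀ {l : ℕ} {C : Matrix (Fin l) (Fin l) ℤ}, Cartan C →
  ∀ {F Γ : Type} [Field F] [Infinite F] [Cod M F] [DF U F] [Group Γ] [Cod M Γ] [DG U Γ]
  {x : Root C → F → Γ} {τ : (Fin l → Fˣ) →* Γ}, CD x τ → (∀ β, DFn U (x β)) →
    U.D (Om x τ) ∧ U.R (Om x τ) = U.R (Ug x IsNeg : Set Γ) + U.R (range τ : Set Γ) +
      U.R (Ug x IsPos : Set Γ)

/-- right translation by `g` leaves almost all elements of `Ω` in `Ω` -/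
def Sm {M : Type} (U : RU M) {Γ : Type} [Group Γ] [Cod M Γ] (Ω : Set Γ) (g : Γ) : Prop :=
  {z | z ∈ Ω ∧ z * g ∉ Ω}.Nonempty → U.R {z | z ∈ Ω ∧ z * g ∉ Ω} < U.R Ω

/-- OMS: translations of the big cell -/
def T_OMS {M : Type} (U : RU M) : Prop := ∀ {l : ℕ} {C : Matrix (Fin l) (Fin l) ℤ} (hC : Cartan C)
  {F Γ : Type} [Field F] [Infinite F] [Cod M F] [DF U F] [Group Γ] [Cod M Γ] [DG U Γ]
  {x : Root C → F → Γ} {τ : (Fin l → Fˣ) →* Γ}, CD x τ → (∀ β, DFn U (x β)) →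
    ∀ (i : Fin l) (t : F), Sm U (Om x τ) (x (sr hC i) t) ∧ Sm U (Om x τ) (x (ng (sr hC i)) t)

/-- CTG: a set which is almost invariant under translations -/
def T_CTG {M : Type} (U : RU M) : Prop := ∀ {Γ : Type} [Group Γ] [Cod M Γ] [DG U Γ] (Ω E : Set Γ),
  U.D Ω → Ω.Nonempty → Subgroup.closure E = ⊤ → (∀ g ∈ E, g⁻¹ ∈ E ∧ Sm U Ω g) →
    U.R (univ : Set Γ) ≤ U.R Ω

/-- UPR: the rank of the group -/
def T_UPR {M : Type} (U : RU M) : Prop := ∀ {l : ℕ} {C : Matrix (Fin l) (Fin l) ℤ}, Cartan C →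
  ∀ {F Γ : Type} [Field F] [Infinite F] [Cod M F] [DF U F] [Group Γ] [Cod M Γ] [DG U Γ]
  {x : Root C → F → Γ} {τ : (Fin l → Fˣ) →* Γ}, CD x τ → (∀ β, DFn U (x β)) →
    U.R (univ : Set Γ) ≤ (Nat.card (Root C) + l) * U.R (univ : Set F)

/-! ## F. Permutation groups -/

/-- STB: the stabilizers -/
def T_STB : Prop := ∀ {G S : Type} [Group G] [MulAction G S] (U : RU (G ⊕ S)), PG G S U →
  MulAction.IsPretransitive G S → ∀ s : S,
    U.D ((MulAction.stabilizer G s : Subgroup G) : Set G) ∧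
    U.R ((MulAction.stabilizer G s : Subgroup G) : Set G) + U.R (univ : Set S) =
      U.R (univ : Set G)

/-- FIN: the theorem -/
def T_FIN : Prop := ∀ {l : ℕ} {C : Matrix (Fin l) (Fin l) ℤ}, Cartan C → 2 ≤ l →
  ∀ {F : Type} [Field F] [IsAlgClosed F] {G S : Type} [Group G] [MulAction G S] (U : RU (G ⊕ S)),
    PG G S U → MulAction.IsPretransitive G S → FaithfulSMul G S → Nonempty (G ≃* Chev C F) →
    ∃ k : ℕ, Nat.card (Root C) = l * (k + 1) ∧ k ≤ U.R (univ : Set S) ∧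
      k * U.R (univ : Set G) ≤ l * (k + 2) * U.R (univ : Set S) ∧
      (Branch C → U.R (univ : Set G) < U.R (univ : Set S) * (U.R (univ : Set S) + 2) ∧
        ¬ GenTr U (U.R (univ : Set S) + 2))

end Pool.Agent.H77.BD
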